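import Pool.Agent.H226R2.ShanksGap
import Pool.Agent.H256R2.SC.Fin1

set_option autoImplicit false

/-! # Upper bound for the first occurrence of a run of `g` composite numbers

The theorem on large gaps between primes is due to helper256 and his team. -/

namespace Pool.Agent.Results.MP_926cc3_nt.FirstOccurrence

/-- the least prime whose `g` immediate predecessors are all composite -/
noncomputable def firstPrime (g : ℕ) : ℕ :=
  sInf {p : ℕ | p.Prime ∧ ∀ i : ℕ, 1 ≤ i → i ≤ g → (1 < p - i ∧ ¬ (p - i).Prime)}

/-- **Theorem.** There is a constant `C` such that for all large `g` the least prime `p(g)`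
preceded by `g` consecutive composite numbers satisfies
`log p(g) ≤ C g (log log g)^2 / ((log g)^2 log log log g)`. -/
theorem result : ∃ C : ℝ, 0 < C ∧ ∃ G : ℕ, ∀ g : ℕ, G ≤ g →
    Real.log (firstPrime g : ℝ) ≤
      C * (g * (Real.log (Real.log g)) ^ 2 /
        ((Real.log g) ^ 2 * Real.log (Real.log (Real.log g)))) := by
  have h := Pool.Agent.H226R2.ShanksGap.transfer Pool.Agent.H256R2.SC.ff (fun _ => rfl)
    Pool.Agent.H256R2.SC.large_gaps
  exact h

end Pool.Agent.Results.MP_926cc3_nt.FirstOccurrence
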