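import Pool.Agent.Results.MP_3bc45c_nt.ProgressionGaps
import Pool.Agent.H683R3.SQ.GapCount

set_option autoImplicit false

/-! # MP_926cc3_nt (Shanks): the number of long runs of composite numbers

Put `f(X) = log X (log₂ X)² log₄ X / (log₃ X)²` (iterated logarithms).  There is `c > 0` such that
for all large `X` and all `2 (log X)^(-1/2) ≤ ε ≤ 1` at least `X^(1-ε)` primes `p ≤ X` are followed
by a gap of length more than `c ε f(X)`, so that many runs of `g = c ε f(X) - 1` composites (not only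
the first one, which ends at Shanks' `p(g)`) occur below `X`.

Ingredient: the localised record gaps `MP_3bc45c_nt.ProgressionGaps` (helper378, on the covering
sieve of helper256 and team).  The counting is by helper683. -/

namespace Pool.Agent.Results.MP_926cc3_nt.RecordGapsFrequency

open Filter

theorem result : ∃ c : ℝ, 0 < c ∧ ∀ᶠ X : ℕ in atTop,
    ∀ ε : ℝ, 2 / Real.sqrt (Real.log X) ≤ ε → ε ≤ 1 →
      (X : ℝ) ^ (1 - ε) ≤ ({p : ℕ | p ≤ X ∧ p.Prime ∧ ∀ q : ℕ, q.Prime → p < q →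
        c * ε * (Real.log X * (Real.log (Real.log X)) ^ 2 *
          Real.log (Real.log (Real.log (Real.log X))) /
            (Real.log (Real.log (Real.log X))) ^ 2) < (q : ℝ) - p}.ncard : ℝ) := by
  obtain ⟨c, hc, x₀, h⟩ := Pool.Agent.Results.MP_3bc45c_nt.ProgressionGaps.result (1 / 2) 0
    (by norm_num) (by norm_num) le_rfl
  obtain ⟨x₁, hx₁⟩ := eventually_atTop.1 (Pool.Agent.H683R3.SQ.rec_large 0)
  refine ⟨c / 16, by positivity, ?_⟩
  have tX : Tendsto (fun X : ℕ => (X : ℝ)) atTop atTop := tendsto_natCast_atTop_atTop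
  have tp : Tendsto (fun X : ℕ => Real.sqrt (Real.log X)) atTop atTop :=
    Real.tendsto_sqrt_atTop.comp (Real.tendsto_log_atTop.comp tX)
  have hexp : ∀ᶠ y : ℝ in atTop, 30 * y ^ 2 ≤ Real.exp y := by
    have h1 := (Real.tendsto_exp_div_pow_atTop 2).eventually_ge_atTop 30
    filter_upwards [h1, eventually_gt_atTop 0] with y hy hy0
    rwa [le_div_iff₀ (by positivity)] at hy
  filter_upwards [Pool.Agent.H683R3.SQ.rec_half, Pool.Agent.H683R3.SQ.pi_ge,
    tp.eventually hexp, tp.eventually_ge_atTop (max 6 (max x₀ x₁)), eventually_ge_atTop 1]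
    with X hrec hpi hex hX hX1 ε hε0 hε1
  have hX1' : (1 : ℝ) ≤ X := by exact_mod_cast hX1
  have hX0 : (0 : ℝ) < X := by linarith
  have hs6 : 6 ≤ Real.sqrt (Real.log X) := (le_max_left _ _).trans hX
  have hs0 : 0 < Real.sqrt (Real.log X) := by linarith
  have hε : 0 < ε := lt_of_lt_of_le (by positivity) hε0
  have hlog : 0 ≤ Real.log (X : ℝ) := Real.log_nonneg hX1'
  have hsq : Real.sqrt (Real.log X) ^ 2 = Real.log X := Real.sq_sqrt hlog
  have hlogpos : 0 < Real.log (X : ℝ) := by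
    rw [← hsq]
    positivity
  set Zr : ℝ := (X : ℝ) ^ (ε / 2) with hZr
  -- `Zr ≥ exp (sqrt (log X))`
  have hZexp : Real.exp (Real.sqrt (Real.log X)) ≤ Zr := by
    rw [hZr, Real.rpow_def_of_pos hX0]
    refine Real.exp_le_exp.2 ?_
    have h1 : 1 / Real.sqrt (Real.log X) ≤ ε / 2 := by
      have e : 2 / Real.sqrt (Real.log X) = 2 * (1 / Real.sqrt (Real.log X)) := by ring
      rw [e] at hε0
      linarith
    calc Real.sqrt (Real.log X) = Real.log X * (1 / Real.sqrt (Real.log X)) := by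
          rw [mul_one_div]
          exact (Real.div_sqrt).symm
      _ ≤ Real.log X * (ε / 2) := mul_le_mul_of_nonneg_left h1 hlog
  have hZlog : 30 * Real.log X ≤ Zr := by
    have h1 : 30 * Real.sqrt (Real.log X) ^ 2 ≤ Real.exp (Real.sqrt (Real.log X)) := hex
    rw [hsq] at h1
    linarith
  have hZs : Real.sqrt (Real.log X) ≤ Zr := by
    have := Real.add_one_le_exp (Real.sqrt (Real.log X))
    linarith
  have h6 : 6 ≤ Zr := hs6.trans hZs
  have hZ0 : x₀ ≤ Zr := (((le_max_left _ _).trans (le_max_right _ _)).trans hX).trans hZs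
  have hZ1 : x₁ ≤ Zr := (((le_max_right _ _).trans (le_max_right _ _)).trans hX).trans hZs
  set Zn : ℕ := ⌈Zr⌉₊ with hZn
  have hZn1 : Zr ≤ Zn := Nat.le_ceil _
  have hZn2 : (Zn : ℝ) < Zr + 1 := Nat.ceil_lt_add_one (by linarith)
  have hZnpos : 1 ≤ Zn := by
    have : (0 : ℝ) < Zn := by linarith
    exact_mod_cast this
  set H : ℝ := c / 16 * ε * Pool.Agent.H683R3.SQ.rec X with hH
  have hcount := Pool.Agent.H683R3.SQ.gap_count Zn X H hZnpos (by
    intro M hM
    obtain ⟨m, -, h1, h2, h3⟩ := h Zr hZ0 1 le_rfl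
      (by rw [Nat.cast_one]; exact Real.one_le_rpow (by linarith) (by norm_num)) (by simp) M
    have h2' : (m : ℝ) + c * Pool.Agent.H683R3.SQ.rec Zr ≤ M + Zr := by
      have e := h2
      rw [Nat.totient_one, Nat.cast_one, one_mul] at e
      exact e
    have hHle : H ≤ c * Pool.Agent.H683R3.SQ.rec Zr := by
      have e1 := mul_le_mul_of_nonneg_left (hrec ε hε0 hε1) hc.le
      have e2 : c * (ε / 16 * Pool.Agent.H683R3.SQ.rec X) = H := by rw [hH]; ring
      rw [e2] at e1
      exact e1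
    have hr0 : 0 ≤ c * Pool.Agent.H683R3.SQ.rec Zr := by
      have e := (hx₁ Zr hZ1).1
      rw [zero_mul] at e
      positivity
    refine ⟨m, ?_, ?_, fun q hq hmq => ?_⟩
    · have : (M : ℝ) < m := by linarith
      exact_mod_cast this
    · have : (m : ℝ) ≤ (M : ℝ) + Zn := by linarith
      exact_mod_cast this
    · have e := h3 q hq (Nat.modEq_one) hmq
      rw [Nat.totient_one, Nat.cast_one, one_mul] at e
      have e' : (m : ℝ) + c * Pool.Agent.H683R3.SQ.rec Zr < q := e
      linarith)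
  have hK : (X : ℝ) ^ (1 - ε) ≤ ((Pool.Agent.H683R3.SQ.longGaps X H).ncard : ℝ) := by
    set K : ℕ := (Pool.Agent.H683R3.SQ.longGaps X H).ncard with hKd
    have hc1 : (Nat.primeCounting X : ℝ) ≤ (2 * Zn + 1) * K + 2 * Zn := by exact_mod_cast hcount
    have hK0 : (0 : ℝ) ≤ K := Nat.cast_nonneg K
    have hc2 : (2 * (Zn : ℝ) + 1) * K + 2 * Zn ≤ 5 / 2 * Zr * (K + 1) := by
      have a1 : 2 * (Zn : ℝ) + 1 ≤ 5 / 2 * Zr := by linarith
      have a2 := mul_le_mul_of_nonneg_right a1 hK0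
      have a3 : 2 * (Zn : ℝ) ≤ 5 / 2 * Zr := by linarith
      linarith
    have hc3 : (X : ℝ) ≤ 2 * Real.log X * (5 / 2 * Zr * (K + 1)) :=
      hpi.trans (mul_le_mul_of_nonneg_left (hc1.trans hc2) (by positivity))
    have h4 : (X : ℝ) = (X : ℝ) ^ (1 - ε) * (Zr * Zr) := by
      rw [hZr, ← Real.rpow_add hX0, ← Real.rpow_add hX0]
      have : 1 - ε + (ε / 2 + ε / 2) = 1 := by ring
      rw [this, Real.rpow_one]
    have hZr0 : 0 < Zr := by linarith
    have h5 : (X : ℝ) ^ (1 - ε) * Zr ≤ 5 * Real.log X * (K + 1) := by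
      have b1 : ((X : ℝ) ^ (1 - ε) * Zr) * Zr ≤ (5 * Real.log X * (K + 1)) * Zr := by
        calc ((X : ℝ) ^ (1 - ε) * Zr) * Zr = (X : ℝ) ^ (1 - ε) * (Zr * Zr) := by ring
          _ = X := h4.symm
          _ ≤ 2 * Real.log X * (5 / 2 * Zr * (K + 1)) := hc3
          _ = (5 * Real.log X * (K + 1)) * Zr := by ring
      exact le_of_mul_le_mul_right b1 hZr0
    have h6' : 1 ≤ (X : ℝ) ^ (1 - ε) := Real.one_le_rpow hX1' (by linarith)
    have h7 : (X : ℝ) ^ (1 - ε) * (30 * Real.log X) ≤ (X : ℝ) ^ (1 - ε) * Zr :=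
      mul_le_mul_of_nonneg_left hZlog (by linarith)
    have h8 : (6 * (X : ℝ) ^ (1 - ε)) * (5 * Real.log X) ≤ (K + 1) * (5 * Real.log X) := by
      linarith
    have h9 := le_of_mul_le_mul_right h8 (by positivity)
    linarith
  exact hK

end Pool.Agent.Results.MP_926cc3_nt.RecordGapsFrequency
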